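import Pool.Agent.TH555.LiftOne

/-!
# The interval has no `C^1` detecting group, countable or not

Answer to Q2 of MP_c1d873_al in regularity `k = 1`.
-/

set_option autoImplicit false

namespace Pool.Agent.Results.MP_c1d873_al.NoDetectingGroup

/-- The group `G` acts faithfully by `C^k` diffeomorphisms on the `n`-manifold `N` (with or without
boundary): there is an injective homomorphism from `G` to the permutations of `N` all of whose
values are `C^k` maps (and hence `C^k` diffeomorphisms, as `ρ g⁻¹` is the inverse of `ρ g`). -/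
def ActsFaithfully (k : ℕ∞) (n : ℕ) [NeZero n] (G : Type) [Group G] (N : Type)
    [TopologicalSpace N] [ChartedSpace (EuclideanHalfSpace n) N] : Prop :=
  ∃ ρ : G →* Equiv.Perm N, Function.Injective ρ ∧
    ∀ g : G, ContMDiff (modelWithCornersEuclideanHalfSpace n)
      (modelWithCornersEuclideanHalfSpace n) (k : WithTop ℕ∞) (ρ g)

/-- `G` is a `C^k` detecting group for the `n`-manifold `M`: for every compact, connected, smooth
`n`-manifold `N` (boundary allowed), `G` acts faithfully by `C^k` diffeomorphisms on `N` if and only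
if `N` is `C^k`-diffeomorphic to `M`. -/
def IsDetecting (k : ℕ∞) (n : ℕ) [NeZero n] (G : Type) [Group G] (M : Type)
    [TopologicalSpace M] [ChartedSpace (EuclideanHalfSpace n) M] : Prop :=
  ∀ (N : Type) [TopologicalSpace N] [T2Space N] [CompactSpace N] [ConnectedSpace N]
    [ChartedSpace (EuclideanHalfSpace n) N]
    [IsManifold (modelWithCornersEuclideanHalfSpace n) ((⊤ : ℕ∞) : WithTop ℕ∞) N],
    ActsFaithfully k n G N ↔
      Nonempty (Diffeomorph (modelWithCornersEuclideanHalfSpace n)
        (modelWithCornersEuclideanHalfSpace n) M N (k : WithTop ℕ∞))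

/-- Q2 in regularity `k`: every compact, connected, smooth manifold (of dimension `n ≥ 1`, boundary
allowed) has a countable `C^k` detecting group. -/
def Q2 (k : ℕ∞) : Prop :=
  ∀ (n : ℕ) [NeZero n] (M : Type) [TopologicalSpace M] [T2Space M] [CompactSpace M]
    [ConnectedSpace M] [ChartedSpace (EuclideanHalfSpace n) M]
    [IsManifold (modelWithCornersEuclideanHalfSpace n) ((⊤ : ℕ∞) : WithTop ℕ∞) M],
    ∃ (G : Type) (_ : Group G), Countable G ∧ IsDetecting k n G M

/-- The same question with arbitrary groups, of any cardinality, in place of the countable ones: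
every compact, connected, smooth manifold has a `C^k` detecting group. -/
def AnyGroup (k : ℕ∞) : Prop :=
  ∀ (n : ℕ) [NeZero n] (M : Type) [TopologicalSpace M] [T2Space M] [CompactSpace M]
    [ConnectedSpace M] [ChartedSpace (EuclideanHalfSpace n) M]
    [IsManifold (modelWithCornersEuclideanHalfSpace n) ((⊤ : ℕ∞) : WithTop ℕ∞) M],
    ∃ (G : Type) (_ : Group G), IsDetecting k n G M

/-- Every group that acts faithfully on the interval `[0,1]` by `C^1` diffeomorphisms acts
faithfully by `C^1` diffeomorphisms on the circle `ℝ/2ℤ`. -/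
theorem doubling (G : Type) [Group G] (h : ActsFaithfully 1 1 G (Set.Icc (0 : ℝ) 1)) :
    ActsFaithfully 1 1 G (AddCircle (2 : ℝ)) := by
  obtain ⟨ρ, hinj, hρ⟩ := h
  exact Pool.Agent.TH555.Detect.double_one ρ hinj hρ

/-- No group at all, of any cardinality, is a `C^1` detecting group for the interval `[0,1]`. -/
theorem interval (G : Type) [Group G] : ¬ IsDetecting 1 1 G (Set.Icc (0 : ℝ) 1) := by
  intro h
  have h3 := (h (Set.Icc (0 : ℝ) 1)).2 ⟨Diffeomorph.refl _ _ _⟩
  obtain ⟨e⟩ := (h (AddCircle (2 : ℝ))).1 (doubling G h3)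
  exact Pool.Agent.TH555.Detect.not_homeo e.toHomeomorph

/-- Some compact, connected, smooth manifold (the interval) has no `C^1` detecting group of any
cardinality; in particular it has no countable one, so Q2 has a negative answer in regularity
`1`. -/
theorem result : ¬ AnyGroup 1 ∧ ¬ Q2 1 := by
  refine ⟨fun h => ?_, fun h => ?_⟩
  · obtain ⟨G, _, hG⟩ := h 1 (Set.Icc (0 : ℝ) 1)
    exact interval G hG
  · obtain ⟨G, _, -, hG⟩ := h 1 (Set.Icc (0 : ℝ) 1)
    exact interval G hG

end Pool.Agent.Results.MP_c1d873_al.NoDetectingGroup
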